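import Pool.Agent.Helper63.GB2.Defs

/-!
# MP_02f2ca_gt, module N6 : lower bound for the small box
-/

open Set MeasureTheory Filter Topology

namespace GB

namespace MeshLower

/-- rounding of a complex number to a Gaussian integer -/
noncomputable def rd (z : ℂ) : ℤ × ℤ := (round z.re, round z.im)

lemma norm_le_of_coord {z : ℂ} {c d : ℝ} (h1 : |z.re| ≤ c) (h2 : |z.im| ≤ c) (hd : 0 ≤ d)
    (hcd : c ^ 2 + c ^ 2 ≤ d ^ 2) : ‖z‖ ≤ d := by
  rw [← sq_le_sq₀ (norm_nonneg z) hd, ← Complex.normSq_eq_norm_sq, Complex.normSq_apply]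
  have e1 : z.re * z.re ≤ c ^ 2 := by
    have := sq_le_sq' (abs_le.mp h1).1 (abs_le.mp h1).2
    nlinarith
  have e2 : z.im * z.im ≤ c ^ 2 := by
    have := sq_le_sq' (abs_le.mp h2).1 (abs_le.mp h2).2
    nlinarith
  linarith

lemma norm_rd (z : ℂ) : ‖gi (rd z) - z‖ ≤ 3 / 4 := by
  refine norm_le_of_coord (c := 1 / 2) ?_ ?_ (by norm_num) (by norm_num)
  · have := abs_sub_round z.re
    rw [abs_sub_comm] at this
    simpa [gi, rd] using this
  · have := abs_sub_round z.im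
    rw [abs_sub_comm] at this
    simpa [gi, rd] using this

lemma norm_fr2 (α : ℝ) (v : ℤ × ℤ) : ‖fr2 α v‖ ≤ 3 / 4 := by
  refine norm_le_of_coord (c := 1 / 2) ?_ ?_ (by norm_num) (by norm_num)
  · exact abs_sub_round _
  · exact abs_sub_round _

end MeshLower

open MeshLower in
theorem mesh_lower (α w : ℝ) (hw : 0 < w) (hw1 : w ≤ 1) (L R : ℕ) (hLw : 16 ≤ w * L)
    (hR : 16 ≤ R) (κ : ℝ) (hκ : |κ| ≤ L) (q h η : ℂ) (hq : ‖q‖ = 1) :
    ∃ B₀ : ℕ, ∀ B : ℕ, B₀ ≤ B →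
      w * (R : ℝ) ^ 2 * (L : ℝ) ^ 4 / 2048 ≤
        ∑ s ∈ boxZ B, ∑ v ∈ boxZ B, bump R (md α L q h η κ s v) *
          (smallbox w).indicator (fun _ => (1 : ℝ)) (mb α L q h s v) := by
  classical
  have hL16 : (16 : ℝ) ≤ L := by nlinarith [Nat.cast_nonneg (α := ℝ) L]
  have hLpos : (0 : ℝ) < L := by linarith
  have hR16 : (16 : ℝ) ≤ R := by exact_mod_cast hR
  have hq0 : q ≠ 0 := by
    rintro rfl
    simp at hq
  have hLC : (L : ℂ) ≠ 0 := by
    have : (L : ℕ) ≠ 0 := by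
      rintro rfl
      simp at hLpos
    exact_mod_cast this
  -- numbers
  set m₁ : ℕ := ⌊3 * (w * L) / 16⌋₊ with hm₁
  set m₂ : ℕ := ⌊3 * (L : ℝ) / 16⌋₊ with hm₂
  set n : ℕ := ⌊3 * ((R : ℝ) * L) / 5⌋₊ with hn
  have hm₁a : w * L / 8 ≤ (m₁ : ℝ) := by
    have := Nat.sub_one_lt_floor (3 * (w * L) / 16)
    rw [← hm₁] at this
    linarith
  have hm₁b : (m₁ : ℝ) ≤ 3 * (w * L) / 16 := Nat.floor_le (by positivity)
  have hm₂a : (L : ℝ) / 8 ≤ (m₂ : ℝ) := by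
    have := Nat.sub_one_lt_floor (3 * (L : ℝ) / 16)
    rw [← hm₂] at this
    linarith
  have hm₂b : (m₂ : ℝ) ≤ 3 * (L : ℝ) / 16 := Nat.floor_le (by positivity)
  have hRL : (256 : ℝ) ≤ R * L := by nlinarith
  have hna : (R : ℝ) * L / 2 ≤ (n : ℝ) := by
    have := Nat.sub_one_lt_floor (3 * ((R : ℝ) * L) / 5)
    rw [← hn] at this
    linarith
  have hnb : (n : ℝ) ≤ 3 * ((R : ℝ) * L) / 5 := Nat.floor_le (by positivity)
  -- centres and lattice points
  set ctr : Fin m₁ × Fin m₂ → ℂ := fun ij =>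
    ⟨2 + 23 / 4 * w + (2 * ((ij.1 : ℕ) : ℝ) + 2) / L, 1 / 4 + (2 * ((ij.2 : ℕ) : ℝ) + 2) / L⟩ with hctr
  set sp : Fin m₁ × Fin m₂ → ℤ × ℤ := fun ij => rd ((L : ℂ) * (q⁻¹ * ctr ij - h)) with hsp
  -- base point
  set bs : ℤ × ℤ → ℂ := fun s => q * (h + gi s / (L : ℂ)) with hbs
  have hbs1 : ∀ ij, ‖bs (sp ij) - ctr ij‖ ≤ 3 / 4 / L := by
    intro ij
    have e : bs (sp ij) - ctr ij
        = q * ((gi (sp ij) - (L : ℂ) * (q⁻¹ * ctr ij - h)) / (L : ℂ)) := by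
      simp only [hbs]
      field_simp
      ring
    rw [e, norm_mul, hq, one_mul, norm_div, Complex.norm_natCast]
    exact div_le_div_of_nonneg_right (norm_rd _) hLpos.le
  have hbs2 : ∀ s v, ‖mb α L q h s v - bs s‖ ≤ 3 / 4 / L := by
    intro s v
    have e : mb α L q h s v - bs s = q * (fr2 α v / (L : ℂ)) := by
      simp only [hbs, mb]
      ring
    rw [e, norm_mul, hq, one_mul, norm_div, Complex.norm_natCast]
    exact div_le_div_of_nonneg_right (norm_fr2 _ _) hLpos.le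
  have hspinj : Function.Injective sp := by
    intro ij kl hij
    have h1 := hbs1 ij
    have h2 := hbs1 kl
    rw [hij] at h1
    have h3 : ‖ctr ij - ctr kl‖ ≤ 3 / 2 / L := by
      calc ‖ctr ij - ctr kl‖ = ‖(bs (sp kl) - ctr kl) - (bs (sp kl) - ctr ij)‖ := by
            congr 1; ring
        _ ≤ ‖bs (sp kl) - ctr kl‖ + ‖bs (sp kl) - ctr ij‖ := norm_sub_le _ _
        _ ≤ 3 / 4 / L + 3 / 4 / L := add_le_add h2 h1
        _ = 3 / 2 / L := by ring
    have h4 := (Complex.abs_re_le_norm _).trans h3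
    have h5 := (Complex.abs_im_le_norm _).trans h3
    have e4 : (ctr ij - ctr kl).re = 2 * (((ij.1 : ℕ) : ℝ) - ((kl.1 : ℕ) : ℝ)) / L := by
      simp only [hctr, Complex.sub_re]; ring
    have e5 : (ctr ij - ctr kl).im = 2 * (((ij.2 : ℕ) : ℝ) - ((kl.2 : ℕ) : ℝ)) / L := by
      simp only [hctr, Complex.sub_im]; ring
    rw [e4, abs_div, abs_of_pos hLpos] at h4
    rw [e5, abs_div, abs_of_pos hLpos] at h5
    have h6 := (div_le_div_iff_of_pos_right hLpos).mp h4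
    have h7 := (div_le_div_iff_of_pos_right hLpos).mp h5
    have aux : ∀ a b : ℕ, |2 * ((a : ℝ) - (b : ℝ))| ≤ 3 / 2 → a = b := by
      intro a b hab
      by_contra hne
      have h8 : (1 : ℝ) ≤ |(a : ℝ) - (b : ℝ)| := by
        have h9 : (a : ℤ) - b ≠ 0 := by omega
        have h10 := Int.one_le_abs h9
        exact_mod_cast h10
      rw [abs_mul] at hab
      norm_num at hab
      linarith
    have h8 := aux _ _ h6
    have h9 := aux _ _ h7
    exact Prod.ext (Fin.ext h8) (Fin.ext h9)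
  -- second coordinates
  set tt : ℤ × ℤ → ℂ := fun s => q⁻¹ * (Complex.I * (κ : ℂ) * bs s) + η with htt
  set vp : ℤ × ℤ → Fin n × Fin n → ℤ × ℤ := fun s ab =>
    (⌈-(tt s).re * L - 3 / 10 * (R * L)⌉ + ((ab.1 : ℕ) : ℤ),
      ⌈-(tt s).im * L - 3 / 10 * (R * L)⌉ + ((ab.2 : ℕ) : ℤ)) with hvp
  have hvinj : ∀ s, Function.Injective (vp s) := by
    intro s ab cd hab
    simp only [hvp, Prod.mk.injEq, add_right_inj, Nat.cast_inj] at hab
    exact Prod.ext (Fin.ext hab.1) (Fin.ext hab.2)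
  have hcoord : ∀ (t : ℝ) (a : ℕ), a < n →
      |t + ((⌈-t * L - 3 / 10 * (R * L)⌉ + (a : ℤ) : ℤ) : ℝ) / L| ≤ 3 / 10 * R := by
    intro t a ha
    have h1 := Int.le_ceil (-t * L - 3 / 10 * ((R : ℝ) * L))
    have h2 := Int.ceil_lt_add_one (-t * L - 3 / 10 * ((R : ℝ) * L))
    have ha1 : (a : ℝ) + 1 ≤ n := by exact_mod_cast ha
    have ha0 : (0 : ℝ) ≤ a := Nat.cast_nonneg a
    push_cast
    set c : ℝ := (⌈-t * L - 3 / 10 * ((R : ℝ) * L)⌉ : ℝ) with hc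
    have e : t + (c + a) / L = (t * L + c + a) / L := by
      field_simp
      ring
    rw [e, abs_div, abs_of_pos hLpos, div_le_iff₀ hLpos, abs_le]
    constructor
    · nlinarith
    · nlinarith
  have hmd : ∀ s ab, ‖md α L q h η κ s (vp s ab)‖ ≤ (R : ℝ) / 2 := by
    intro s ab
    have e : md α L q h η κ s (vp s ab)
        = Complex.I * (κ : ℂ) * (mb α L q h s (vp s ab) - bs s)
          + q * (tt s + gi (vp s ab) / (L : ℂ)) := by
      simp only [md, htt]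
      field_simp
      ring
    rw [e]
    refine (norm_add_le _ _).trans ?_
    have h1 : ‖Complex.I * (κ : ℂ) * (mb α L q h s (vp s ab) - bs s)‖ ≤ 3 / 4 := by
      rw [norm_mul, norm_mul, Complex.norm_I, one_mul, Complex.norm_real, Real.norm_eq_abs]
      calc |κ| * ‖mb α L q h s (vp s ab) - bs s‖ ≤ L * (3 / 4 / L) :=
            mul_le_mul hκ (hbs2 _ _) (norm_nonneg _) hLpos.le
        _ = 3 / 4 := by field_simp
    have h2 : ‖q * (tt s + gi (vp s ab) / (L : ℂ))‖ ≤ 9 / 20 * R := by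
      rw [norm_mul, hq, one_mul]
      refine norm_le_of_coord (c := 3 / 10 * R) ?_ ?_ (by positivity) (by nlinarith)
      · have := hcoord (tt s).re ab.1 ab.1.2
        have e1 : (tt s + gi (vp s ab) / (L : ℂ)).re
            = (tt s).re + ((⌈-(tt s).re * L - 3 / 10 * (R * L)⌉ + ((ab.1 : ℕ) : ℤ) : ℤ) : ℝ) / L := by
          rw [Complex.add_re, Complex.div_natCast_re]
          simp only [gi, hvp]
        rw [e1]
        exact this
      · have := hcoord (tt s).im ab.2 ab.2.2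
        have e1 : (tt s + gi (vp s ab) / (L : ℂ)).im
            = (tt s).im + ((⌈-(tt s).im * L - 3 / 10 * (R * L)⌉ + ((ab.2 : ℕ) : ℤ) : ℤ) : ℝ) / L := by
          rw [Complex.add_im, Complex.div_natCast_im]
          simp only [gi, hvp]
        rw [e1]
        exact this
    linarith
  have hmb : ∀ ij v, mb α L q h (sp ij) v ∈ smallbox w := by
    intro ij v
    have h1 : ‖mb α L q h (sp ij) v - ctr ij‖ ≤ 3 / 2 / L := by
      calc ‖mb α L q h (sp ij) v - ctr ij‖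
          = ‖(mb α L q h (sp ij) v - bs (sp ij)) + (bs (sp ij) - ctr ij)‖ := by
            congr 1; ring
        _ ≤ ‖mb α L q h (sp ij) v - bs (sp ij)‖ + ‖bs (sp ij) - ctr ij‖ := norm_add_le _ _
        _ ≤ 3 / 4 / L + 3 / 4 / L := add_le_add (hbs2 _ _) (hbs1 _)
        _ = 3 / 2 / L := by ring
    have h2 := abs_le.mp ((Complex.abs_re_le_norm _).trans h1)
    have h3 := abs_le.mp ((Complex.abs_im_le_norm _).trans h1)
    rw [Complex.sub_re] at h2
    rw [Complex.sub_im] at h3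
    have hinv : 1 / (L : ℝ) ≤ w / 16 := by
      rw [div_le_div_iff₀ hLpos (by norm_num)]
      linarith
    have hinv0 : 0 < 1 / (L : ℝ) := by positivity
    have ei : (ctr ij).re = 2 + 23 / 4 * w + (2 * ((ij.1 : ℕ) : ℝ) + 2) * (1 / L) := by
      simp only [hctr]; ring
    have ej : (ctr ij).im = 1 / 4 + (2 * ((ij.2 : ℕ) : ℝ) + 2) * (1 / L) := by
      simp only [hctr]; ring
    have e32 : 3 / 2 / (L : ℝ) = 3 / 2 * (1 / L) := by ring
    rw [ei, e32] at h2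
    rw [ej, e32] at h3
    have hi1 : ((ij.1 : ℕ) : ℝ) + 1 ≤ m₁ := by exact_mod_cast ij.1.2
    have hj1 : ((ij.2 : ℕ) : ℝ) + 1 ≤ m₂ := by exact_mod_cast ij.2.2
    have hi0 : (0 : ℝ) ≤ ((ij.1 : ℕ) : ℝ) := Nat.cast_nonneg _
    have hj0 : (0 : ℝ) ≤ ((ij.2 : ℕ) : ℝ) := Nat.cast_nonneg _
    have hA : (2 * ((ij.1 : ℕ) : ℝ) + 2) * (1 / L) ≤ 3 / 8 * w := by
      calc (2 * ((ij.1 : ℕ) : ℝ) + 2) * (1 / L) ≤ (2 * (3 * (w * L) / 16)) * (1 / L) := by
            refine mul_le_mul_of_nonneg_right (by linarith) hinv0.le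
        _ = 3 / 8 * w := by field_simp; ring
    have hB : (2 * ((ij.2 : ℕ) : ℝ) + 2) * (1 / L) ≤ 3 / 8 := by
      calc (2 * ((ij.2 : ℕ) : ℝ) + 2) * (1 / L) ≤ (2 * (3 * (L : ℝ) / 16)) * (1 / L) := by
            refine mul_le_mul_of_nonneg_right (by linarith) hinv0.le
        _ = 3 / 8 := by field_simp; ring
    have hA0 : 2 * (1 / (L : ℝ)) ≤ (2 * ((ij.1 : ℕ) : ℝ) + 2) * (1 / L) :=
      mul_le_mul_of_nonneg_right (by linarith) hinv0.le
    have hB0 : 2 * (1 / (L : ℝ)) ≤ (2 * ((ij.2 : ℕ) : ℝ) + 2) * (1 / L) :=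
      mul_le_mul_of_nonneg_right (by linarith) hinv0.le
    refine ⟨⟨?_, ?_⟩, ⟨?_, ?_⟩⟩ <;> linarith [h2.1, h2.2, h3.1, h3.2]
  -- the set of good pairs
  set T : Finset ((ℤ × ℤ) × (ℤ × ℤ)) :=
    (Finset.univ : Finset ((Fin m₁ × Fin m₂) × (Fin n × Fin n))).image
      (fun x => (sp x.1, vp (sp x.1) x.2)) with hT
  have hTcard : T.card = m₁ * m₂ * (n * n) := by
    rw [hT, Finset.card_image_of_injective]
    · simp
    · rintro ⟨ij, ab⟩ ⟨kl, cd⟩ hx
      simp only [Prod.mk.injEq] at hx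
      obtain ⟨h1, h2⟩ := hx
      have h3 := hspinj h1
      subst h3
      have h4 := hvinj _ h2
      rw [h4]
  -- the bound B₀
  obtain ⟨B₀, hB₀⟩ : ∃ B₀ : ℕ, ∀ p ∈ T, p.1.1.natAbs ≤ B₀ ∧ p.1.2.natAbs ≤ B₀ ∧
      p.2.1.natAbs ≤ B₀ ∧ p.2.2.natAbs ≤ B₀ := by
    refine ⟨∑ p ∈ T, (p.1.1.natAbs + p.1.2.natAbs + p.2.1.natAbs + p.2.2.natAbs), ?_⟩
    intro p hp
    have := Finset.single_le_sum (f := fun p : (ℤ × ℤ) × (ℤ × ℤ) =>
      p.1.1.natAbs + p.1.2.natAbs + p.2.1.natAbs + p.2.2.natAbs) (fun _ _ => Nat.zero_le _) hp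
    refine ⟨?_, ?_, ?_, ?_⟩ <;> omega
  refine ⟨B₀, fun B hB => ?_⟩
  have hsub : T ⊆ boxZ B ×ˢ boxZ B := by
    intro p hp
    obtain ⟨h1, h2, h3, h4⟩ := hB₀ p hp
    simp only [boxZ, Finset.mem_product, Finset.mem_Icc]
    refine ⟨⟨⟨?_, ?_⟩, ⟨?_, ?_⟩⟩, ⟨⟨?_, ?_⟩, ⟨?_, ?_⟩⟩⟩ <;> omega
  rw [← Finset.sum_product']
  have hnonneg : ∀ p : (ℤ × ℤ) × (ℤ × ℤ), 0 ≤ bump R (md α L q h η κ p.1 p.2) *
          (smallbox w).indicator (fun _ => (1 : ℝ)) (mb α L q h p.1 p.2) := by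
    intro p
    refine mul_nonneg (le_max_left _ _) ?_
    exact Set.indicator_nonneg (fun _ _ => zero_le_one) _
  have hhalf : ∀ p ∈ T, (1 / 2 : ℝ) ≤ bump R (md α L q h η κ p.1 p.2) *
          (smallbox w).indicator (fun _ => (1 : ℝ)) (mb α L q h p.1 p.2) := by
    intro p hp
    rw [hT, Finset.mem_image] at hp
    obtain ⟨⟨ij, ab⟩, _, rfl⟩ := hp
    simp only
    rw [Set.indicator_of_mem (hmb ij _), mul_one]
    refine le_trans ?_ (le_max_right _ _)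
    have h1 := hmd (sp ij) ab
    have h2 : ‖md α L q h η κ (sp ij) (vp (sp ij) ab)‖ / R ≤ 1 / 2 := by
      rw [div_le_iff₀ (by linarith)]
      linarith
    linarith
  calc w * (R : ℝ) ^ 2 * (L : ℝ) ^ 4 / 2048
      ≤ (T.card : ℝ) * (1 / 2) := by
        rw [hTcard]
        push_cast
        have h1 : w * L / 8 * (L / 8) ≤ (m₁ : ℝ) * m₂ :=
          mul_le_mul hm₁a hm₂a (by positivity) (by positivity)
        have h2 : (R : ℝ) * L / 2 * (R * L / 2) ≤ (n : ℝ) * n :=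
          mul_le_mul hna hna (by positivity) (by positivity)
        have h3 : w * L / 8 * (L / 8) * ((R : ℝ) * L / 2 * (R * L / 2)) ≤
            (m₁ : ℝ) * m₂ * (n * n) := mul_le_mul h1 h2 (by positivity) (by positivity)
        have h4 : w * L / 8 * (L / 8) * ((R : ℝ) * L / 2 * (R * L / 2))
            = w * (R : ℝ) ^ 2 * (L : ℝ) ^ 4 / 256 := by ring
        rw [h4] at h3
        have h5 : 0 ≤ w * (R : ℝ) ^ 2 * (L : ℝ) ^ 4 := by positivity
        linarith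
    _ = ∑ p ∈ T, (1 / 2 : ℝ) := by simp
    _ ≤ ∑ p ∈ T, bump R (md α L q h η κ p.1 p.2) *
          (smallbox w).indicator (fun _ => (1 : ℝ)) (mb α L q h p.1 p.2) :=
        Finset.sum_le_sum hhalf
    _ ≤ ∑ p ∈ boxZ B ×ˢ boxZ B, bump R (md α L q h η κ p.1 p.2) *
          (smallbox w).indicator (fun _ => (1 : ℝ)) (mb α L q h p.1 p.2) :=
        Finset.sum_le_sum_of_subset_of_nonneg hsub (fun p _ _ => hnonneg p)

end GB
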